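import Pool.Agent.R349.Generic
import Pool.Agent.TH21.MS.NomeMain

/-!
# The modular Schanuel conjecture with derivatives at algebraic nomes: a bounded number of exceptions in small discs

For points `z_k = log x_k / (2πi)` of the upper half-plane with algebraic nomes `x_k = exp (2πi z_k)` the modular Schanuel
conjecture with derivatives gives lower bounds for the transcendence degree of the field generated by the `z_k` and the values
`j (z_k)`, `j' (z_k)`, `j'' (z_k)`; one expects that the `4 n + 1` numbers `π`, `log x_k`, `j (z_k)`, `D j (z_k)`, `D² j (z_k)`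
(`D = (1/2πi) d/dz`), which generate together with `i` the same field as `π`, `z_k`, `j (z_k)`, `j' (z_k)`, `j'' (z_k)`, are
algebraically independent if the `x_k` are multiplicatively independent. For `n = 1` the last three numbers are algebraically
independent by Nesterenko's theorem.

Let `L` be a compact subset of the slit disc and `δ > 0`. We consider elements `x` of a number field `F` of degree at most `m`
which are in `L` and of height at most `T`, for instance all fractions `a / q` of `L` with one fixed denominator `q = T`. Let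
`X_1, …, X_n` be finite sets of such elements, each of diameter at most `T ^ (-δ)`. At most `C ∑_j ∏_(i ≠ j) |X_i|` of the tuples
of `X_1 × … × X_n` are bad, where `C` does not depend on `T`, `F`, and the `X_j`; and if each `X_j` has more than `C` elements
there is a good tuple. Good means that the `4 n + 1` numbers satisfy no polynomial relation of degree at most `d` and height
at most `T ^ A` over `F`, and the `4 n` numbers without `π` satisfy no such relation, not even an approximate one, whose
coefficients are combinations of given complex numbers `ξ_1, …, ξ_g`.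

Proof. Determinants of Bombieri-Pila type with arbitrary constants (`Pool.Agent.Y120.local_thmN`) and Mahler's theorem on the
algebraic independence of the functions `x`, `log x`, `J (x)`, `D J (x)`, `D² J (x)` (`Pool.Agent.TH21.MS.Mahler`).
-/

set_option autoImplicit false

open NumberField

namespace Pool.Agent.Results.MP_5e64e7_nt.AlgebraicNomes

/-- the normalised Eisenstein series of weight `4` -/
noncomputable def E4 (τ : ℂ) : ℂ :=
  1 + 240 * ∑' m : ℕ, ((ArithmeticFunction.sigma 3 (m + 1) : ℕ) : ℂ) *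
    Complex.exp (2 * (Real.pi : ℂ) * Complex.I * τ) ^ (m + 1)

/-- the normalised Eisenstein series of weight `6` -/
noncomputable def E6 (τ : ℂ) : ℂ :=
  1 - 504 * ∑' m : ℕ, ((ArithmeticFunction.sigma 5 (m + 1) : ℕ) : ℂ) *
    Complex.exp (2 * (Real.pi : ℂ) * Complex.I * τ) ^ (m + 1)

/-- the modular invariant `j = q⁻¹ + 744 + 196884 q + ⋯` -/
noncomputable def j (τ : ℂ) : ℂ := 1728 * E4 τ ^ 3 / (E4 τ ^ 3 - E6 τ ^ 2)

/-- the point `z = log x / (2πi)`, `exp (2πi z) = x`, of the upper half-plane, for `0 < |x| < 1` -/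
noncomputable def z (x : ℂ) : ℂ := Complex.log x / (2 * (Real.pi : ℂ) * Complex.I)

/-- `log x`, `j (z)`, `D j (z)`, `D² j (z)`, where `D = (1/2πi) d/dz` -/
noncomputable def four (x : ℂ) : Fin 4 → ℂ :=
  ![Complex.log x, j (z x), deriv j (z x) / (2 * (Real.pi : ℂ) * Complex.I),
    deriv (deriv j) (z x) / (2 * (Real.pi : ℂ) * Complex.I) ^ 2]

/-- the slit disc -/
def SlitDisc : Set ℂ := {x : ℂ | ‖x‖ < 1 ∧ x ∈ Complex.slitPlane}

/-- The polynomials of degree at most `d` in each variable, all of whose coefficients are of the form `∑ ξ_i ι(c_i)`, where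
the `c_i` are integers of the number field `F` all of whose conjugates have absolute value at most `H`. -/
def Admissible {σ : Type} {g : ℕ} (F : Type) [Field F] [NumberField F] (ι : F →+* ℂ) (ξ : Fin g → ℂ) (d : ℕ) (H : ℝ)
    (P : MvPolynomial σ ℂ) : Prop :=
  (∀ j, P.degreeOf j ≤ d) ∧
    ∀ s, ∃ c : Fin g → 𝓞 F, (∀ i (φ : F →+* ℂ), ‖φ (c i)‖ ≤ H) ∧ P.coeff s = ∑ i, ξ i * ι (c i)

/-- The tuple `x` of elements of `F` is good: every admissible polynomial takes at the `4 n` numbers `log x_k`, `j (z_k)`,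
`D j (z_k)`, `D² j (z_k)` a value which is at least `δ` times each of its coefficients, and `π` and these numbers satisfy no
relation `Q = 0` with a nonzero polynomial `Q` of degree at most `d` in each variable whose coefficients are integers of `F`
with conjugates of absolute value at most `H`. -/
def Good {n g : ℕ} (F : Type) [Field F] [NumberField F] (ι : F →+* ℂ) (ξ : Fin g → ℂ) (d : ℕ) (H δ : ℝ)
    (x : Fin n → F) : Prop :=
  (∀ P : MvPolynomial (Fin n × Fin 4) ℂ, Admissible F ι ξ d H P → ∀ s,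
    δ * ‖P.coeff s‖ ≤ ‖MvPolynomial.aeval (fun p : Fin n × Fin 4 => four (ι (x p.1)) p.2) P‖) ∧
  ∀ Q : MvPolynomial (Option (Fin n × Fin 4)) (𝓞 F), Q ≠ 0 → (∀ x, Q.degreeOf x ≤ d) →
    (∀ s (φ : F →+* ℂ), ‖φ ((Q.coeff s : 𝓞 F) : F)‖ ≤ H) →
    MvPolynomial.eval₂ (ι.comp (algebraMap (𝓞 F) F))
      (fun o => o.elim (Real.pi : ℂ) fun p : Fin n × Fin 4 => four (ι (x p.1)) p.2) Q ≠ 0

/-- The element `x` of `F` is a quotient of integers all of whose conjugates have absolute value at most `T`. -/
def HeightLe (F : Type) [Field F] [NumberField F] (T : ℝ) (x : F) : Prop :=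
  ∃ a b : 𝓞 F, b ≠ 0 ∧ (∀ φ : F →+* ℂ, ‖φ a‖ ≤ T ∧ ‖φ b‖ ≤ T) ∧ x = a / b

lemma two_pi_I : (2 * (Real.pi : ℂ) * Complex.I) ≠ 0 := by
  have h1 : (Real.pi : ℂ) ≠ 0 := by exact_mod_cast Real.pi_ne_zero
  exact mul_ne_zero (mul_ne_zero two_ne_zero h1) Complex.I_ne_zero

lemma z_im (x : ℂ) (hx : x ∈ SlitDisc) : 0 < (z x).im := by
  have h0 : x ≠ 0 := Complex.slitPlane_ne_zero hx.2
  have h1 : (z x) = -Complex.I * (Complex.log x / (2 * Real.pi)) := by
    unfold z
    have h1 : (Real.pi : ℂ) ≠ 0 := by exact_mod_cast Real.pi_ne_zero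
    have h2 := Complex.I_ne_zero
    field_simp
    rw [Complex.I_sq]
    ring
  have h2 : (Complex.log x / (2 * Real.pi)) = Complex.log x / ((2 * Real.pi : ℝ) : ℂ) := by push_cast; rfl
  rw [h1, h2, Complex.mul_im]
  simp only [Complex.neg_re, Complex.I_re, neg_zero, zero_mul, Complex.neg_im, Complex.I_im, Complex.div_ofReal_re,
    Complex.log_re, zero_add]
  have h3 := Real.log_neg (norm_pos_iff.2 h0) hx.1
  have h4 := Real.pi_pos
  have h5 : Real.log ‖x‖ / (2 * Real.pi) < 0 := div_neg_of_neg_of_pos h3 (by positivity)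
  linarith

lemma z_an (x : ℂ) (hx : x ∈ SlitDisc) : AnalyticAt ℂ z x := by
  unfold z
  exact (analyticAt_clog hx.2).div analyticAt_const two_pi_I

lemma four_an (i : Fin 4) (x : ℂ) (hx : x ∈ SlitDisc) : AnalyticAt ℂ (fun x => four x i) x := by
  have hj : AnalyticAt ℂ j (z x) := Pool.Agent.TH21.MS.jj_an (z x) (z_im x hx)
  have h1 : AnalyticAt ℂ (fun x => j (z x)) x := AnalyticAt.fun_comp hj (z_an x hx)
  have h2 : AnalyticAt ℂ (fun x => deriv j (z x)) x := AnalyticAt.fun_comp hj.deriv (z_an x hx)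
  have h3 : AnalyticAt ℂ (fun x => deriv (deriv j) (z x)) x := AnalyticAt.fun_comp hj.deriv.deriv (z_an x hx)
  fin_cases i
  · exact analyticAt_clog hx.2
  · exact h1
  · exact h2.div analyticAt_const two_pi_I
  · exact h3.div analyticAt_const (pow_ne_zero _ two_pi_I)

lemma disc_conn : IsPreconnected SlitDisc := by
  have h1 : StarConvex ℝ (1 / 2 : ℂ) SlitDisc := by
    have h2 : StarConvex ℝ (1 / 2 : ℂ) (Metric.ball (0 : ℂ) 1) := by
      refine (convex_ball (0 : ℂ) 1).starConvex ?_
      rw [Metric.mem_ball, dist_zero_right]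
      norm_num
    have h3 : StarConvex ℝ (1 / 2 : ℂ) Complex.slitPlane := by
      intro y hy a b ha hb hab
      rw [Complex.mem_slitPlane_iff] at hy ⊢
      have e1 : (a • (1 / 2 : ℂ) + b • y).re = a / 2 + b * y.re := by
        simp
        ring
      have e2 : (a • (1 / 2 : ℂ) + b • y).im = b * y.im := by simp
      rw [e1, e2]
      rcases eq_or_lt_of_le hb with hb0 | hb0
      · left
        rw [← hb0] at hab ⊢
        have : a = 1 := by linarith
        rw [this]
        norm_num
      · rcases hy with hy | hy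
        · left
          have := mul_pos hb0 hy
          linarith
        · right
          exact mul_ne_zero hb0.ne' hy
    have h4 : SlitDisc = Metric.ball (0 : ℂ) 1 ∩ Complex.slitPlane := by
      ext x
      simp [SlitDisc]
    rw [h4]
    exact h2.inter h3
  have h5 : (1 / 2 : ℂ) ∈ SlitDisc := by
    constructor
    · norm_num
    · rw [Complex.mem_slitPlane_iff]
      left
      norm_num
  exact (h1.isPathConnected h5).isConnected.isPreconnected

lemma locInd (x : ℂ) (hx : x ∈ SlitDisc) : Pool.Agent.Y124.LocInd (fun (i : Fin 4) x => four x i) x := by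
  refine Pool.Agent.Y771.RP.locInd_of _ SlitDisc disc_conn (fun i t ht => four_an i t ht) ?_ x hx
  intro P hP
  refine Pool.Agent.Y771.RP.ind_of_real (fun (i : Fin 4) x => four x i) Pool.Agent.TH21.MS.fJ (Set.Ioo 0 1) ?_ ?_ P ?_
  · intro i t ht
    have h1 : four (t : ℂ) i = Pool.Agent.TH21.MS.four t i := by
      have h2 : Complex.log (t : ℂ) = ((Real.log t : ℝ) : ℂ) := (Complex.ofReal_log ht.1.le).symm
      have h3 : z (t : ℂ) = Pool.Agent.TH21.MS.zx t := by
        unfold z Pool.Agent.TH21.MS.zx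
        rw [h2]
      unfold four Pool.Agent.TH21.MS.four
      rw [h2, h3]
      rfl
    change four (t : ℂ) i = _
    rw [h1]
    exact Pool.Agent.TH21.MS.four_eq t ht i
  · intro Q hQ
    exact Pool.Agent.Y771.RP.mv_of_exp Pool.Agent.TH21.MS.fJ (Set.Ioo 0 1)
      (fun d p hp => Pool.Agent.TH21.MS.mahler_zero p hp) Q hQ
  · intro t ht
    refine hP (t : ℂ) ⟨?_, ?_⟩
    · rw [Complex.norm_real, Real.norm_eq_abs, abs_of_pos ht.1]
      exact ht.2
    · rw [Complex.ofReal_mem_slitPlane]
      exact ht.1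

theorem result (n m g d : ℕ) (L : Set ℂ) (hL : IsCompact L) (hLD : L ⊆ SlitDisc) (A δ : ℝ) (hδ : 0 < δ) :
    ∃ (B : ℝ) (C : ℕ) (T₀ : ℝ), ∀ (F : Type) [Field F] [NumberField F], Module.finrank ℚ F ≤ m →
      ∀ (ι : F →+* ℂ) (ξ : Fin g → ℂ) (T : ℝ), T₀ ≤ T → ∀ X : Fin n → Finset F,
        (∀ k, ∀ x ∈ X k, ι x ∈ L ∧ HeightLe F T x) → (∀ k, ∀ x ∈ X k, ∀ y ∈ X k, ‖ι x - ι y‖ ≤ T ^ (-δ)) →
        (({x : Fin n → F | (∀ k, x k ∈ X k) ∧ ¬ Good F ι ξ d (T ^ A) (T ^ (-B)) x}.ncard : ℝ) ≤
          C * ∑ k, ∏ i ∈ Finset.univ.erase k, ((X i).card : ℝ)) ∧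
        ((∀ k, C < (X k).card) → ∃ x : Fin n → F, (∀ k, x k ∈ X k) ∧ Good F ι ξ d (T ^ A) (T ^ (-B)) x) := by
  exact Pool.Agent.R349.Gen.shortG m n g d (fun _ (i : Fin 4) x => four x i) L hL
    (fun _ i t ht => four_an i t (hLD ht)) (fun _ t ht => locInd t (hLD ht)) A δ hδ

end Pool.Agent.Results.MP_5e64e7_nt.AlgebraicNomes
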