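import Pool.Agent.R437.Met.GG
import Pool.Agent.Results.MP_5e64e7_nt.AlgebraicNomes

/-!
# The modular Schanuel conjecture with derivatives at the algebraic nomes near a given point

For points `z_k = log x_k / (2πi)` of the upper half-plane with algebraic nomes `x_k = exp (2πi z_k)` one expects that
the `4 n + 1` numbers `π`, `log x_k`, `j (z_k)`, `D j (z_k)`, `D² j (z_k)` (`D = (1/2πi) d/dz`), which generate together
with `i` the same field as `π`, `z_k`, `j (z_k)`, `j' (z_k)`, `j'' (z_k)`, are algebraically independent if the `x_k`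
are multiplicatively independent. Let `F` be a number field in `ℂ` and `c_0, c_1, …` any complex numbers. For every
`τ > 0` and all `ξ` in the `n`-th power of the slit disc outside a set of Hausdorff dimension at most
`2 [F : ℚ] (n - 1) / τ` all `n`-tuples `x` of elements of `F` of height at most `T`, `T` large, with
`|ξ_k - x_k| ≤ C T ^ (-τ)` are good: the `4 n + 1` numbers satisfy no polynomial relation of degree at most `d` and
height at most `T ^ A` over `F`, and the `4 n` numbers without `π` satisfy no such relation, not even an approximate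
one, whose coefficients are linear combinations of `c_0, …, c_(g-1)` with coefficients in `F` of height at most
`T ^ A`. For `n = 1` the exceptional set has dimension zero, for every `τ > 0`.

Proof. The bounds for the number of the bad tuples in small discs in `AlgebraicNomes` give bounds for the number of all
bad tuples of height at most `T` in a compact set; and the set of the `ξ` with infinitely many bad tuples nearby is
covered by balls around these.
-/

set_option autoImplicit false

open NumberField

namespace Pool.Agent.Results.MP_5e64e7_nt.NearEveryPoint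

open Pool.Agent.R437.Met

/-- the normalised Eisenstein series of weight `4` -/
noncomputable def E4 (τ : ℂ) : ℂ :=
  1 + 240 * ∑' m : ℕ, ((ArithmeticFunction.sigma 3 (m + 1) : ℕ) : ℂ) *
    Complex.exp (2 * (Real.pi : ℂ) * Complex.I * τ) ^ (m + 1)

/-- the normalised Eisenstein series of weight `6` -/
noncomputable def E6 (τ : ℂ) : ℂ :=
  1 - 504 * ∑' m : ℕ, ((ArithmeticFunction.sigma 5 (m + 1) : ℕ) : ℂ) *
    Complex.exp (2 * (Real.pi : ℂ) * Complex.I * τ) ^ (m + 1)

/-- the modular invariant `j = q⁻¹ + 744 + 196884 q + ⋯` -/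
noncomputable def j (τ : ℂ) : ℂ := 1728 * E4 τ ^ 3 / (E4 τ ^ 3 - E6 τ ^ 2)

/-- the point `z = log x / (2πi)`, `exp (2πi z) = x`, of the upper half-plane, for `0 < |x| < 1` -/
noncomputable def z (x : ℂ) : ℂ := Complex.log x / (2 * (Real.pi : ℂ) * Complex.I)

/-- `log x`, `j (z)`, `D j (z)`, `D² j (z)`, where `D = (1/2πi) d/dz` -/
noncomputable def four (x : ℂ) : Fin 4 → ℂ :=
  ![Complex.log x, j (z x), deriv j (z x) / (2 * (Real.pi : ℂ) * Complex.I),
    deriv (deriv j) (z x) / (2 * (Real.pi : ℂ) * Complex.I) ^ 2]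

/-- the slit disc -/
def SlitDisc : Set ℂ := {x : ℂ | ‖x‖ < 1 ∧ x ∈ Complex.slitPlane}

/-- The polynomials of degree at most `d` in each variable, all of whose coefficients are of the form `∑ c_i ι(a_i)`,
where the `a_i` are integers of the number field `F` all of whose conjugates have absolute value at most `H`. -/
def Admissible {σ : Type} {g : ℕ} (F : Type) [Field F] [NumberField F] (ι : F →+* ℂ) (c : Fin g → ℂ) (d : ℕ)
    (H : ℝ) (P : MvPolynomial σ ℂ) : Prop :=
  (∀ j, P.degreeOf j ≤ d) ∧
    ∀ s, ∃ a : Fin g → 𝓞 F, (∀ i (φ : F →+* ℂ), ‖φ (a i)‖ ≤ H) ∧ P.coeff s = ∑ i, c i * ι (a i)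

/-- The tuple `x` of elements of `F` is good: every admissible polynomial takes at the `4 n` numbers `log x_k`,
`j (z_k)`, `D j (z_k)`, `D² j (z_k)` a value which is at least `δ` times each of its coefficients, and `π` and these
numbers satisfy no relation `Q = 0` with a nonzero polynomial `Q` of degree at most `d` in each variable whose
coefficients are integers of `F` with conjugates of absolute value at most `H`. -/
def Good {n g : ℕ} (F : Type) [Field F] [NumberField F] (ι : F →+* ℂ) (c : Fin g → ℂ) (d : ℕ) (H δ : ℝ)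
    (x : Fin n → F) : Prop :=
  (∀ P : MvPolynomial (Fin n × Fin 4) ℂ, Admissible F ι c d H P → ∀ s,
    δ * ‖P.coeff s‖ ≤ ‖MvPolynomial.aeval (fun p : Fin n × Fin 4 => four (ι (x p.1)) p.2) P‖) ∧
  ∀ Q : MvPolynomial (Option (Fin n × Fin 4)) (𝓞 F), Q ≠ 0 → (∀ x, Q.degreeOf x ≤ d) →
    (∀ s (φ : F →+* ℂ), ‖φ ((Q.coeff s : 𝓞 F) : F)‖ ≤ H) →
    MvPolynomial.eval₂ (ι.comp (algebraMap (𝓞 F) F))
      (fun o => o.elim (Real.pi : ℂ) fun p : Fin n × Fin 4 => four (ι (x p.1)) p.2) Q ≠ 0

/-- The element `x` of `F` is a quotient of integers all of whose conjugates have absolute value at most `T`. -/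
def HeightLe (F : Type) [Field F] [NumberField F] (T : ℝ) (x : F) : Prop :=
  ∃ a b : 𝓞 F, b ≠ 0 ∧ (∀ φ : F →+* ℂ, ‖φ a‖ ≤ T ∧ ‖φ b‖ ≤ T) ∧ x = a / b

lemma disc_open : IsOpen SlitDisc :=
  (isOpen_lt continuous_norm continuous_const).inter Complex.isOpen_slitPlane

/-- **Algebraic nomes near a given point.** Let `F` be a number field with an embedding `ι` in `ℂ`, `n ≥ 1`, `c` a
sequence of complex numbers. For every `τ > 0` there is a set `E` of Hausdorff dimension at most
`2 [F : ℚ] (n - 1) / τ` such that for all `ξ` outside `E` with coordinates in the slit disc and all `g`, `d`, `A`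
there is `B` such that for all `C` and all large `T`: the `n`-tuples `x` of elements of `F` of height at most `T` with
`|ξ_k - ι(x_k)| ≤ C T ^ (-τ)` for all `k` are good, for the degree `d`, the height `T ^ A`, the first `g` of the numbers
`c`, and the measure `T ^ (-B)`. -/
theorem result (n : ℕ) (hn : 1 ≤ n) (F : Type) [Field F] [NumberField F] (ι : F →+* ℂ) (c : ℕ → ℂ) (τ : ℝ)
    (hτ : 0 < τ) :
    ∃ E : Set (Fin n → ℂ), dimH E ≤ ENNReal.ofReal (2 * (Module.finrank ℚ F : ℝ) * ((n : ℝ) - 1) / τ) ∧
      ∀ ξ : Fin n → ℂ, (∀ k, ξ k ∈ SlitDisc) → ξ ∉ E → ∀ (g d : ℕ) (A : ℝ), ∃ B : ℝ, ∀ C : ℝ, ∃ T₁ : ℝ,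
        ∀ T : ℝ, T₁ ≤ T → ∀ x : Fin n → F,
          (∀ k, HeightLe F T (x k) ∧ ‖ξ k - ι (x k)‖ ≤ C * T ^ (-τ)) →
            Good F ι (fun i : Fin g => c i) d (T ^ A) (T ^ (-B)) x :=
  GG.master F ι n hn (fun _ (i : Fin 4) x => AlgebraicNomes.four x i) SlitDisc disc_open
    (fun _ i t ht => AlgebraicNomes.four_an i t ht) (fun _ t ht => AlgebraicNomes.locInd t ht) c τ hτ

end Pool.Agent.Results.MP_5e64e7_nt.NearEveryPoint
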