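import Pool.Agent.R728.RC.Each
import Pool.Agent.Results.MP_5e64e7_nt.AlmostAllRationalNomes

/-!
# Values of `j`, `j'`, `j''` at all points with rational nomes in random residue classes

Let `[a, b] ⊂ (0, 1)`, `n ≥ 1`. Let `𝓜` be a set of moduli with `∑ m ^ (-s) < ∞` and let `X m` be
random elements of any sets `Y m`, each value of which has probability at most `K m ^ (-θ)`; no
independence is assumed. Let `φ m` be any maps from the `n`-tuples of rational numbers to `Y m`,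
for instance the residues modulo `m`. If `β > 2 - 2 / ((d + 1)^(4 n + 1) + 1)` and
`ρ (2 (n - 1) + β) ≤ θ - s` then almost surely, for all but finitely many `m` in `𝓜`, for ALL
`n`-tuples `x` of rational numbers in `[a, b]` with denominators at most `m ^ ρ` and `φ m x = X m`,
the `4 n + 1` numbers `π`, `log x_k`, `j (z_k)`, `D j (z_k)`, `D² j (z_k)`, `exp (2πi z_k) = x_k`,
satisfy no approximate polynomial relation of degree at most `d` in each variable with integer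
coefficients bounded by a fixed power of `m`.
-/

set_option autoImplicit false

namespace Pool.Agent.Results.MP_5e64e7_nt.RandomResidues

open MeasureTheory

/-- the normalised Eisenstein series of weight `4` -/
noncomputable def E4 (τ : ℂ) : ℂ :=
  1 + 240 * ∑' m : ℕ, ((ArithmeticFunction.sigma 3 (m + 1) : ℕ) : ℂ) *
    Complex.exp (2 * (Real.pi : ℂ) * Complex.I * τ) ^ (m + 1)

/-- the normalised Eisenstein series of weight `6` -/
noncomputable def E6 (τ : ℂ) : ℂ :=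
  1 - 504 * ∑' m : ℕ, ((ArithmeticFunction.sigma 5 (m + 1) : ℕ) : ℂ) *
    Complex.exp (2 * (Real.pi : ℂ) * Complex.I * τ) ^ (m + 1)

/-- the modular invariant `j = q⁻¹ + 744 + 196884 q + ⋯` -/
noncomputable def j (τ : ℂ) : ℂ := 1728 * E4 τ ^ 3 / (E4 τ ^ 3 - E6 τ ^ 2)

/-- the point `z = log x / (2πi)` of the upper half-plane, `exp (2πi z) = x`, for `0 < x < 1` -/
noncomputable def z (x : ℝ) : ℂ := (Real.log x : ℂ) / (2 * (Real.pi : ℂ) * Complex.I)

/-- `log x`, `j (z)`, `D j (z)`, `D² j (z)`, where `D = (1/2πi) d/dz` -/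
noncomputable def four (x : ℝ) : Fin 4 → ℂ :=
  ![(Real.log x : ℂ), j (z x), deriv j (z x) / (2 * (Real.pi : ℂ) * Complex.I),
    deriv (deriv j) (z x) / (2 * (Real.pi : ℂ) * Complex.I) ^ 2]

/-- the `4 n + 1` numbers `π` and `log x_k`, `j (z_k)`, `D j (z_k)`, `D² j (z_k)` -/
noncomputable def numbers {n : ℕ} (x : Fin n → ℚ) (i : Option (Fin n × Fin 4)) : ℂ :=
  i.elim (Real.pi : ℂ) fun p => four (x p.1) p.2

lemma numbers_eq {n : ℕ} (x : Fin n → ℚ) :
    numbers x = AlmostAllRationalNomes.numbers x := rfl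

/-- **Theorem.** Let `[a, b] ⊂ (0, 1)`, `n ≥ 1`, `d`, `A ≥ 0` and
`β > 2 - 2 / ((d + 1)^(4 n + 1) + 1)`. There is `B` with the following property. Let `𝓜` be a set
of positive integers with a convergent sum of the `m ^ (-s)`, let `X m` be random elements of
arbitrary sets `Y m`, each value of which has probability at most `K m ^ (-θ)` (no independence is
assumed), and let `φ m` be any maps from the `n`-tuples of rational numbers to `Y m`; let `ρ ≥ 0`
and `ρ (2 (n - 1) + β) ≤ θ - s`. Almost surely, for all but finitely many `m` in `𝓜`, with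
`T = m ^ ρ`, for ALL `n`-tuples `x` of rational numbers in `[a, b]` with denominators at most `T`
and `φ m x = X m`, all nonzero polynomials `F` in `4 n + 1` variables with integer coefficients of
absolute value at most `T ^ A`, of degree at most `d` in each variable, take at `π`, `log x_k`,
`j (z_k)`, `D j (z_k)`, `D² j (z_k)` a value of absolute value larger than `T ^ (-B)`. -/
theorem result (n d : ℕ) (hn : 1 ≤ n) (a b : ℝ) (ha : 0 < a) (hab : a < b) (hb : b < 1)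
    (A β : ℝ) (hA : 0 ≤ A) (hβ : 2 - 2 / (((d : ℝ) + 1) ^ (4 * n + 1) + 1) < β) :
    ∃ B : ℝ, ∀ (𝓜 : Set ℕ) (s θ K ρ : ℝ) (Ω : Type) [MeasurableSpace Ω] (P : Measure Ω)
      (Y : ℕ → Type) (X : ∀ m : ℕ, Ω → Y m) (φ : ∀ m : ℕ, (Fin n → ℚ) → Y m),
      (∀ m ∈ 𝓜, 0 < m) → (Summable fun m : 𝓜 => ((m : ℕ) : ℝ) ^ (-s)) →
      (∀ m ∈ 𝓜, ∀ y : Y m, P {ω | X m ω = y} ≤ ENNReal.ofReal (K * (m : ℝ) ^ (-θ))) →
      0 ≤ ρ → ρ * (2 * ((n : ℝ) - 1) + β) ≤ θ - s →
      ∀ᵐ ω ∂P, ∃ m₀ : ℕ, ∀ m ∈ 𝓜, m₀ ≤ m → ∀ x : Fin n → ℚ,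
        (∀ k, a ≤ x k ∧ x k ≤ b ∧ ((x k).den : ℝ) ≤ (m : ℝ) ^ ρ) → φ m x = X m ω →
        ∀ F : MvPolynomial (Option (Fin n × Fin 4)) ℤ, F ≠ 0 → (∀ i, F.degreeOf i ≤ d) →
          (∀ s, |((F.coeff s : ℤ) : ℝ)| ≤ ((m : ℝ) ^ ρ) ^ A) →
          ((m : ℝ) ^ ρ) ^ (-B) < ‖MvPolynomial.aeval (numbers x) F‖ := by
  obtain ⟨B, C, hBC⟩ := AlmostAllRationalNomes.result n d hn a b ha hab hb A β hA hβ
  refine ⟨B, fun 𝓜 s θ K ρ Ω _ P Y X φ h0 hsum hX hρ h => ?_⟩
  have hmain := Pool.Agent.R728.RC.eventually_each (𝓜 := 𝓜) (s := s) (θ := θ) (A := K)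
    (D := |C|) (X := X) (φ := φ) (P := P)
    (F := fun m => AlmostAllRationalNomes.Exceptional n d a b A B ((m : ℝ) ^ ρ))
    h0 hsum hX (by
      intro m hm
      have hm1 : (1 : ℝ) ≤ (m : ℝ) := by exact_mod_cast h0 m hm
      obtain ⟨h1, h2⟩ := hBC ((m : ℝ) ^ ρ) (Real.one_le_rpow hm1 hρ)
      refine ⟨h1, h2.trans ?_⟩
      rw [← Real.rpow_mul (by linarith)]
      exact mul_le_mul (le_abs_self C) (Real.rpow_le_rpow_of_exponent_le hm1 h) (by positivity)
        (abs_nonneg C))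
  filter_upwards [hmain] with ω hω
  obtain ⟨m₀, hm₀⟩ := hω
  refine ⟨m₀, fun m hm hmm x h1 h4 F h5 h6 h7 => ?_⟩
  by_contra hcon
  push Not at hcon
  rw [numbers_eq] at hcon
  exact hm₀ m hm hmm x ⟨h1, F, h5, h6, h7, hcon⟩ h4

end Pool.Agent.Results.MP_5e64e7_nt.RandomResidues
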